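import Pool.Agent.Helper44_MVT.Fin

/-!
# Varieties with `x² ≈ x³` and `xyx ≈ x²yx²` (definitions and assembly statements)

Squad MWB (problem MP_23468a_al, beta theorem).  Letters: `0 = x`, `1 = y`, `2 = t`, the letters
from `3` on are further letters.  `RR β l l'`: the words `l`, `l'` are congruent; `dbl l`: every
letter of `l` is written twice.
-/

namespace Pool.Agent.MWB

open Pool.Agent.Helper14_MV Pool.Agent.Helper2_MV Pool.Agent.Helper44_MVT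

/-- `x² ≈ x³` and `xyx ≈ x²yx²` -/
def B0 (β : FIC) : Prop := RR β [0, 0] [0, 0, 0] ∧ RR β [0, 1, 0] [0, 0, 1, 0, 0]

/-- not completely regular -/
def NCR (β : FIC) : Prop := ∀ n : ℕ, 1 ≤ n → ¬ β.r (lx ^ (n + 1)) lx

/-- `(x²y²)² ≈ (y²x²)²` and `x²y²tx ≈ x²y²x²tx` -/
def BW (β : FIC) : Prop :=
  RR β [0, 0, 1, 1, 0, 0, 1, 1] [1, 1, 0, 0, 1, 1, 0, 0] ∧
    RR β [0, 0, 1, 1, 2, 0] [0, 0, 1, 1, 0, 0, 2, 0]

/-- the dual: `(x²y²)² ≈ (y²x²)²` and `xty²x² ≈ xtx²y²x²` -/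
def BW' (β : FIC) : Prop :=
  RR β [0, 0, 1, 1, 0, 0, 1, 1] [1, 1, 0, 0, 1, 1, 0, 0] ∧
    RR β [0, 2, 1, 1, 0, 0] [0, 2, 0, 0, 1, 1, 0, 0]

/-- `x v y t xy ≈ x v y t yx` and `xy t x v y ≈ yx t x v y`, `v` a product of squares of further
letters, and `x² y_1² … y_r² x² ≈ x² y_1² x² y_2² x² … y_r² x²` for all `r` -/
def BB (β : FIC) : Prop :=
  (∀ l : List ℕ, (∀ c ∈ l, 3 ≤ c) →
    RR β ([0] ++ (dbl l ++ [1, 2, 0, 1])) ([0] ++ (dbl l ++ [1, 2, 1, 0]))) ∧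
  (∀ l : List ℕ, (∀ c ∈ l, 3 ≤ c) →
    RR β ([0, 1, 2, 0] ++ (dbl l ++ [1])) ([1, 0, 2, 0] ++ (dbl l ++ [1]))) ∧
  ∀ l : List ℕ, RR β ([0, 0] ++ (dbl l ++ [0, 0])) ([0, 0] ++ l.flatMap (fun c => [c, c, 0, 0]))

/-- necessity -/
def NecStmt : Prop := ∀ β : FIC, ModF β → NCR β → B0 β → BW β ∨ BW' β ∨ BB β

/-- sufficiency of the first system -/
def SwStmt : Prop := ∀ β : FIC, B0 β → BW β → ModF β

/-- sufficiency of the third system -/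
def SbStmt : Prop := ∀ β : FIC, B0 β → BB β → ModF β

end Pool.Agent.MWB
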