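import Pool.Agent.Helper13_MWS.DBA
import Pool.Agent.Helper13_MWS.TLP
import Pool.Agent.Helper15_MWL.FLB
import Pool.Agent.Helper16_MWS.CMP
import Pool.Agent.Helper19_MWL.TA2
import Pool.Agent.Helper19_MWS.JPI
import Pool.Agent.Helper22_MWL.ABS
import Pool.Agent.Helper22_MWS.BFR
import Pool.Agent.Helper23_MWS.NDN
import Pool.Agent.Helper26_MWS.LBB
import Pool.Agent.Helper27_MWS.BSX
import Pool.Agent.Helper27_MWS.GLD
import Pool.Agent.Helper28_MWS.SWV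
import Pool.Agent.Helper28_MWS.TWV
import Pool.Agent.Helper2_MWS.D2F
import Pool.Agent.Helper30_MWL.NDF
import Pool.Agent.Helper30_MWS.BFX
import Pool.Agent.Helper30_MWS.EDV
import Pool.Agent.Helper31_MVO.COM
import Pool.Agent.Helper34_MWL.LAW
import Pool.Agent.Helper36_MWS.MAS
import Pool.Agent.Helper37_MWS.CHK
import Pool.Agent.Helper38_MVO.REN
import Pool.Agent.Helper39_MWS.B2D
import Pool.Agent.Helper39_MWS.BLK
import Pool.Agent.Helper39_MWS.JPV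
import Pool.Agent.Helper39_MWS.SHS
import Pool.Agent.Helper39_MWS.TEV
import Pool.Agent.Helper3_MWL.JPR
import Pool.Agent.Helper3_MWS.TLM
import Pool.Agent.Helper42_MWS.EWL
import Pool.Agent.Helper45_MWL.RMV
import Pool.Agent.Helper45_MWS.CHN
import Pool.Agent.Helper47_MWS.DSV
import Pool.Agent.Helper49_MWS.FEX
import Pool.Agent.Helper51_MWL.DMX
import Pool.Agent.Helper51_MWS.DBX
import Pool.Agent.Helper52_MWL.TAB
import Pool.Agent.Helper54_MWL.HVP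
import Pool.Agent.Helper5_MVO.ONE
import Pool.Agent.Helper60_MWS.SAT
import Pool.Agent.Helper62_MWS.EWX
import Pool.Agent.Helper67_MWS.NRM
import Pool.Agent.Helper67_MWS.RDC
import Pool.Agent.Helper67_MWS.XCW
import Pool.Agent.Helper69_MWL.JFC
import Pool.Agent.Helper74_MWS.CMM
import Pool.Agent.Helper75_MWL.TA1
import Pool.Agent.Helper75_MWS.NSP
import Pool.Agent.Helper77_MWL.TRN
import Pool.Agent.Helper77_MWS.CAP
import Pool.Agent.Helper77_MWS.NFV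
import Pool.Agent.Helper7_MWL.KEY
import Pool.Agent.Helper7_MWS.DBL
import Pool.Agent.Helper81_MWS.MJE
import Pool.Agent.Helper81_MWS.MJO
import Pool.Agent.Helper82_MWS.BLR
import Pool.Agent.Helper88_MWL.PRM
import Pool.Agent.Helper88_MWS.SPF
import Pool.Agent.Helper8_MWS.LRN
import Pool.Agent.Helper90_MWL.CLO
import Pool.Agent.Helper92_MWS.DGN
import Pool.Agent.Helper92_MWS.FRE
import Pool.Agent.Helper92_MWS.XCB
import Pool.Agent.Helper94_MWS.STA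
import Pool.Agent.Helper97_MWL.ARR
import Pool.Agent.Helper97_MWS.IDX

/-!
# Composition of the rows
-/

namespace Pool.Agent.MWB.Comp

theorem mws_gld : Pool.Agent.MWS.GldStmt :=
  Pool.Agent.MWS.H27.gld

theorem mws_cap : Pool.Agent.MWS.CapStmt :=
  Pool.Agent.MWS.H77.cap

theorem mvo_com : Pool.Agent.MVO.ComStmt :=
  Pool.Agent.MVO.H31.com

theorem mws_cmm : Pool.Agent.MWS.CmmStmt :=
  Pool.Agent.MWS.H74.cmm mvo_com

theorem mws_cmp : Pool.Agent.MWS.CmpStmt :=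
  Pool.Agent.MWS.H16.cmp mws_cmm

theorem mws_dgn : Pool.Agent.MWS.DgnStmt :=
  Pool.Agent.MWS.H92.dgn mws_cap mws_cmm mws_cmp

theorem mvo_ren : Pool.Agent.MVO.RenStmt :=
  Pool.Agent.MVO.H38.ren

theorem mws_nrm : Pool.Agent.MWS.NrmStmt :=
  Pool.Agent.MWS.H67.nrm mws_cap

theorem mws_blk : Pool.Agent.MWS.BlkStmt :=
  Pool.Agent.MWS.H39.blk mvo_ren mws_nrm

theorem mws_tlp : Pool.Agent.MWS.TlpStmt :=
  Pool.Agent.MWS.H13.tlp

theorem mvo_one : Pool.Agent.MVO.OneStmt :=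
  Pool.Agent.MVO.H5.one

theorem mwl_trn : Pool.Agent.MWL.TrnStmt :=
  Pool.Agent.MWL.H77.trn

theorem mwl_hvp : Pool.Agent.MWL.HvpStmt :=
  Pool.Agent.MWL.H54.hvp

theorem mwl_abs : Pool.Agent.MWL.AbsStmt :=
  Pool.Agent.MWL.H22.abs mwl_trn mwl_hvp

theorem mwl_key : Pool.Agent.MWL.KeyStmt :=
  Pool.Agent.MWL.H7.key mwl_trn mwl_hvp mwl_abs

theorem mwl_ndf : Pool.Agent.MWL.NdfStmt :=
  Pool.Agent.MWL.H30.ndf

theorem mws_ndn : Pool.Agent.MWS.NdnStmt :=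
  Pool.Agent.MWS.H23.ndn mwl_ndf mws_cap

theorem mws_lrn : Pool.Agent.MWS.LrnStmt :=
  Pool.Agent.MWS.H8.lrn

theorem mws_chk : Pool.Agent.MWS.ChkStmt :=
  Pool.Agent.MWS.H37.chk

theorem mws_dbl : Pool.Agent.MWS.DblStmt :=
  Pool.Agent.MWS.H7.dbl

theorem mws_blr : Pool.Agent.MWS.BlrStmt :=
  Pool.Agent.MWS.H82.blr

theorem mws_dba : Pool.Agent.MWS.DbaStmt :=
  Pool.Agent.MWS.H13.dba mws_blr mws_dbl

theorem mws_sat : Pool.Agent.MWS.SatStmt :=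
  Pool.Agent.MWS.H60.sat mwl_trn mwl_abs mws_lrn mws_chk mws_dbl mws_dba

theorem mws_sta : Pool.Agent.MWS.StaStmt :=
  Pool.Agent.MWS.H94.sta mvo_one mwl_trn mws_sat

theorem mws_shs : Pool.Agent.MWS.ShsStmt :=
  Pool.Agent.MWS.H39.shs mvo_one mwl_trn mwl_key mws_ndn mws_lrn mws_sta

theorem mws_d2f : Pool.Agent.MWS.D2fStmt :=
  Pool.Agent.MWS.H2.d2f mvo_one mws_shs

theorem mwl_dmx : Pool.Agent.MWL.DmxStmt :=
  Pool.Agent.MWL.H51.dmx mwl_hvp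

theorem mwl_arr : Pool.Agent.MWL.ArrStmt :=
  Pool.Agent.MWL.H97.arr mwl_trn mwl_hvp mwl_abs

theorem mwl_ta1 : Pool.Agent.MWL.Ta1Stmt :=
  Pool.Agent.MWL.H75.ta1 mwl_trn mwl_hvp mwl_abs mwl_arr

theorem mwl_ta2 : Pool.Agent.MWL.Ta2Stmt :=
  Pool.Agent.MWL.H19.ta2 mwl_trn mwl_hvp mwl_abs mwl_arr mwl_ta1

theorem mwl_tab : Pool.Agent.MWL.TabStmt :=
  Pool.Agent.MWL.H52.tab mwl_hvp mwl_ta1 mwl_ta2

theorem mwl_rmv : Pool.Agent.MWL.RmvStmt :=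
  Pool.Agent.MWL.H45.rmv mwl_hvp

theorem mwl_clo : Pool.Agent.MWL.CloStmt :=
  Pool.Agent.MWL.H90.clo mwl_trn mwl_hvp mwl_abs mwl_rmv

theorem mwl_flb : Pool.Agent.MWL.FlbStmt :=
  Pool.Agent.MWL.H15.flb mwl_key mwl_trn mwl_tab mwl_rmv mwl_clo

theorem mwl_prm : Pool.Agent.MWL.PrmStmt :=
  Pool.Agent.MWL.H88.prm mwl_hvp mwl_arr mwl_ta1 mwl_ta2

theorem mwl_jpr : Pool.Agent.MWL.JprStmt :=
  Pool.Agent.MWL.H3.jpr mwl_trn mwl_hvp mwl_abs mwl_key mwl_prm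

theorem mwl_jfc : Pool.Agent.MWL.JfcStmt :=
  Pool.Agent.MWL.H69.jfc mwl_rmv

theorem mwl_law : Pool.Agent.MWL.LawStmt :=
  Pool.Agent.MWL.H34.law mwl_dmx mwl_flb mwl_jpr mwl_jfc

theorem mws_chn : Pool.Agent.MWS.ChnStmt :=
  Pool.Agent.MWS.H45.chn mws_nrm

theorem mws_mjo : Pool.Agent.MWS.MjoStmt :=
  Pool.Agent.MWS.H81.mjo mvo_one mwl_law mws_chn mws_ndn mws_lrn mws_shs

theorem mws_nsp : Pool.Agent.MWS.NspStmt :=
  Pool.Agent.MWS.H75.nsp mws_cap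

theorem mws_mje : Pool.Agent.MWS.MjeStmt :=
  Pool.Agent.MWS.H81.mje mws_nsp

theorem mws_tlm : Pool.Agent.MWS.TlmStmt :=
  Pool.Agent.MWS.H3.tlm mws_gld mws_dgn mws_blk mws_tlp mws_d2f mws_mjo mws_mje

theorem mws_bsx : Pool.Agent.MWS.BsxStmt :=
  Pool.Agent.MWS.H27.bsx

theorem mws_bfr : Pool.Agent.MWS.BfrStmt :=
  Pool.Agent.MWS.H22.bfr

theorem mws_bfx : Pool.Agent.MWS.BfxStmt :=
  Pool.Agent.MWS.H30.bfx

theorem mws_rdc : Pool.Agent.MWS.RdcStmt :=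
  Pool.Agent.MWS.H67.rdc

theorem mws_fre : Pool.Agent.MWS.FreStmt :=
  Pool.Agent.MWS.H92.fre

theorem mws_lbb : Pool.Agent.MWS.LbbStmt :=
  Pool.Agent.MWS.H26.lbb mws_bfx

theorem mws_mas : Pool.Agent.MWS.MasStmt :=
  Pool.Agent.MWS.H36.mas mws_bfx mws_rdc mws_fre mws_lbb

theorem mws_idx : Pool.Agent.MWS.IdxStmt :=
  Pool.Agent.MWS.H97.idx

theorem mws_dbx : Pool.Agent.MWS.DbxStmt :=
  Pool.Agent.MWS.H51.dbx mws_blr mws_idx

theorem mws_nfv : Pool.Agent.MWS.NfvStmt :=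
  Pool.Agent.MWS.H77.nfv mws_mas mws_dbx

theorem mws_twv : Pool.Agent.MWS.TwvStmt :=
  Pool.Agent.MWS.H28.twv mws_nfv

theorem mws_swv : Pool.Agent.MWS.SwvStmt :=
  Pool.Agent.MWS.H28.swv mws_bfr mws_nfv mws_twv

theorem mws_tev : Pool.Agent.MWS.TevStmt :=
  Pool.Agent.MWS.H39.tev mws_nfv

theorem mws_jpi : Pool.Agent.MWS.JpiStmt :=
  Pool.Agent.MWS.H19.jpi mws_chn

theorem mws_fex : Pool.Agent.MWS.FexStmt :=
  Pool.Agent.MWS.H49.fex mws_idx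

theorem mws_spf : Pool.Agent.MWS.SpfStmt :=
  Pool.Agent.MWS.H88.spf mwl_key mwl_arr mwl_ta1 mwl_ta2

theorem mws_jpv : Pool.Agent.MWS.JpvStmt :=
  Pool.Agent.MWS.H39.jpv mvo_one mws_cap mws_ndn mws_lrn mws_jpi mws_bsx mws_nfv mws_tev mws_twv mws_fex mws_spf

theorem mws_edv : Pool.Agent.MWS.EdvStmt :=
  Pool.Agent.MWS.H30E.edv mws_nfv mws_tev mws_twv mws_jpv

theorem mws_dsv : Pool.Agent.MWS.DsvStmt :=
  Pool.Agent.MWS.H47.dsv mws_tlm mws_bsx mws_swv mws_edv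

theorem mws_ewx : Pool.Agent.MWS.EwxStmt :=
  Pool.Agent.MWS.H62.ewx mws_idx

theorem mws_ewl : Pool.Agent.MWS.EwlStmt :=
  Pool.Agent.MWS.H42.ewl mws_idx mws_ewx

theorem mws_xcw : Pool.Agent.MWS.XcwStmt :=
  Pool.Agent.MWS.H67.xcw mws_blr mws_idx mws_ewl

theorem mws_w1d : Pool.Agent.MWS.W1dStmt :=
  Pool.Agent.MWS.H49.w1d mws_dsv mws_xcw

theorem mws_xcb : Pool.Agent.MWS.XcbStmt :=
  Pool.Agent.MWS.H92.xcb mws_blr mws_idx

theorem mws_b2d : Pool.Agent.MWS.B2dStmt :=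
  Pool.Agent.MWS.H39.b2d mws_dsv mws_xcb

end Pool.Agent.MWB.Comp
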