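import Pool.Agent.MWB.Final
import Pool.Agent.Helper44_MVT.Brg
import Pool.Agent.MWP.Stmts

/-!
Necessity from the result of block MWP.
-/

namespace Pool.Agent.MWB

open Pool.Agent.Helper14_MV Pool.Agent.Helper2_MV Pool.Agent.Helper44_MVT

theorem ncr_op {β : FIC} (h : NCR β) : NCR (FIC.op β) := by
  intro n hn h1
  apply h n hn
  have h2 : β.r (lx ^ (n + 1)).reverse lx.reverse := h1
  rw [FIC.reverse_pow] at h2
  exact h2

theorem b0_op {β : FIC} (h : B0 β) : B0 (FIC.op β) := by
  refine ⟨?_, ?_⟩
  · rw [rr_op]; exact h.1
  · rw [rr_op]; exact h.2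

theorem ap_of {β : FIC} (hn : NCR β) (h0 : B0 β) : MWF.Ap β := by
  refine ⟨h0.1, ?_⟩
  intro h
  apply hn 1 (le_refl 1)
  have e : lx ^ (1 + 1) = FreeMonoid.ofList [0, 0] := by
    rw [pow_succ, pow_one]; rfl
  rw [e]
  exact h.symm

/-- SATO in the form of block MWP -/
theorem sato_mwp {β : FIC} (hm : ModF β) (hn : NCR β) (h0 : B0 β) (u v : List ℕ)
    (hc : ∀ a, a ∈ u ↔ a ∈ v)
    (hp : ∀ a b, a ≠ b → ([a, b].Sublist u ↔ [a, b].Sublist v)) : RR β (dbl u) (dbl v) :=
  sato hm hn h0.1 h0.2 hc hp

theorem p2_fm0 {a b : ℕ} (ha : a ≠ 0) (hb : b ≠ 0) (l : List ℕ) :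
    P2 a b (l.flatMap (fun c => [c, 0])) ↔ P2 a b l := by
  induction l with
  | nil => exact Iff.rfl
  | cons c l ih =>
    have e : (c :: l).flatMap (fun c => [c, 0]) = c :: 0 :: l.flatMap (fun c => [c, 0]) := rfl
    have hm : b ∈ 0 :: l.flatMap (fun c => [c, 0]) ↔ b ∈ l := by
      constructor
      · intro h
        rcases List.mem_cons.1 h with h | h
        · exact absurd h hb
        · obtain ⟨d, hd, hbd⟩ := List.mem_flatMap.1 h
          have : b = d ∨ b = 0 := by simpa using hbd
          rcases this with h | h
          · exact h ▸ hd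
          · exact absurd h hb
      · intro h
        exact List.mem_cons.2 (Or.inr (List.mem_flatMap.2 ⟨b, h, by simp⟩))
    rw [e, p2_cons, p2_cons, p2_cons, ih, hm]
    constructor
    · rintro (h | ⟨h, _⟩ | h)
      · exact Or.inl h
      · exact absurd h ha
      · exact Or.inr h
    · rintro (h | h)
      · exact Or.inl h
      · exact Or.inr (Or.inr h)

theorem dbl_fm (l : List ℕ) :
    dbl (l.flatMap (fun c => [c, 0])) = l.flatMap (fun c => [c, c, 0, 0]) := by
  induction l with
  | nil => rfl
  | cons c l ih =>
    rw [List.flatMap_cons, dbl_append, ih, List.flatMap_cons]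
    rfl

theorem tau_of {β : FIC} (hm : ModF β) (hn : NCR β) (h0 : B0 β) (l : List ℕ) :
    RR β ([0, 0] ++ (dbl l ++ [0, 0])) ([0, 0] ++ l.flatMap (fun c => [c, c, 0, 0])) := by
  have e1 : [0, 0] ++ (dbl l ++ [0, 0]) = dbl (0 :: (l ++ [0])) := by
    rw [dbl_cons, dbl_append]; rfl
  have e2 : [0, 0] ++ l.flatMap (fun c => [c, c, 0, 0]) =
      dbl (0 :: l.flatMap (fun c => [c, 0])) := by
    rw [dbl_cons, dbl_fm]
    rfl
  rw [e1, e2]
  apply sato hm hn h0.1 h0.2
  · intro a
    simp only [List.mem_cons, List.mem_append, List.mem_flatMap, List.not_mem_nil, or_false]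
    constructor
    · rintro (h | h | h)
      · exact Or.inl h
      · exact Or.inr ⟨a, h, Or.inl rfl⟩
      · exact Or.inl h
    · rintro (h | ⟨d, hd, h | h⟩)
      · exact Or.inl h
      · exact Or.inr (Or.inl (h ▸ hd))
      · exact Or.inl h
  · intro a b hab
    have hmem : ∀ b, b ≠ 0 → (b ∈ l.flatMap (fun c => [c, 0]) ↔ b ∈ l) := by
      intro b hb
      constructor
      · intro h
        obtain ⟨d, hd, hbd⟩ := List.mem_flatMap.1 h
        have : b = d ∨ b = 0 := by simpa using hbd
        rcases this with h | h
        · exact h ▸ hd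
        · exact absurd h hb
      · intro h
        exact List.mem_flatMap.2 ⟨b, h, by simp⟩
    have hlast : ∀ a, a ≠ 0 → (P2 a 0 (l.flatMap (fun c => [c, 0])) ↔ a ∈ l) := by
      intro a ha
      constructor
      · intro h
        exact (hmem a ha).1 (p2_mem h).1
      · intro h
        obtain ⟨A, B, rfl⟩ := List.append_of_mem h
        rw [List.flatMap_append, List.flatMap_cons, p2_append]
        right; right
        rw [p2_append]
        left
        show P2 a 0 [a, 0]
        exact List.Sublist.refl _
    by_cases ha : a = 0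
    · subst ha
      have hb : b ≠ 0 := Ne.symm hab
      rw [p2_cons, p2_cons, hmem b hb]
      constructor
      · intro h
        left
        refine ⟨rfl, ?_⟩
        rcases h with h | h
        · have := h.2
          simp only [List.mem_append, List.mem_cons, List.not_mem_nil, or_false] at this
          rcases this with h | h
          · exact h
          · exact absurd h hb
        · have := (p2_mem h).2
          simp only [List.mem_append, List.mem_cons, List.not_mem_nil, or_false] at this
          rcases this with h | h
          · exact h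
          · exact absurd h hb
      · intro h
        left
        refine ⟨rfl, ?_⟩
        have hbl : b ∈ l := by
          rcases h with h | h
          · exact h.2
          · exact (hmem b hb).1 (p2_mem h).2
        simp [hbl]
    · by_cases hb : b = 0
      · subst hb
        rw [p2_cons, p2_cons, hlast a ha]
        constructor
        · intro h
          right
          rcases h with h | h
          · exact absurd h.1 ha
          · rw [p2_append] at h
            rcases h with h | h | h
            · exact (p2_mem h).1
            · exact h.1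
            · have := h.length_le
              simp at this
        · intro h
          right
          rcases h with h | h
          · exact absurd h.1 ha
          · rw [p2_append]
            exact Or.inr (Or.inl ⟨h, by simp⟩)
      · rw [p2_cons, p2_cons, p2_fm0 ha hb, p2_append]
        constructor
        · intro h
          right
          rcases h with h | h | h | h
          · exact absurd h.1 ha
          · exact h
          · have := h.2
            simp at this
            exact absurd this hb
          · have := h.length_le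
            simp at this
        · intro h
          right
          rcases h with h | h
          · exact absurd h.1 ha
          · exact Or.inl h

theorem map_sub_add {l : List ℕ} (h : ∀ c ∈ l, 3 ≤ c) :
    (l.map (fun c => c - 3)).map (fun c => c + 3) = l := by
  rw [List.map_map]
  conv_rhs => rw [← List.map_id l]
  apply List.map_congr_left
  intro c hc
  have := h c hc
  simp only [Function.comp, id]
  omega

theorem dbl_reverse (l : List ℕ) : (dbl l).reverse = dbl l.reverse := by
  induction l with
  | nil => rfl
  | cons c l ih =>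
    rw [dbl_cons, List.reverse_cons, List.reverse_cons, ih, List.reverse_cons, dbl_append]
    simp [dbl]

/-- **necessity** -/
theorem nec (hF : MWP.FinStmt) : NecStmt := by
  intro β hm hn h0
  have h3 := h3_of hm hn h0.2
  by_cases e0 : RR β [0, 1, 1, 2, 0] [0, 1, 1, 0, 2, 0]
  · left
    refine ⟨h3, ?_⟩
    have a1 := one_dbl h0 (p := []) (q := [1, 1, 2, 0]) (c := 0) (Or.inr (by simp))
    have b1 := one_dbl h0 (p := []) (q := [1, 1, 0, 2, 0]) (c := 0) (Or.inr (by simp))
    have b2 := one_dbl h0 (p := [0, 0, 1, 1]) (q := [2, 0]) (c := 0) (Or.inr (by simp))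
    have a1' : RR β [0, 1, 1, 2, 0] [0, 0, 1, 1, 2, 0] := by simpa using a1
    have b1' : RR β [0, 1, 1, 0, 2, 0] [0, 0, 1, 1, 0, 2, 0] := by simpa using b1
    have b2' : RR β [0, 0, 1, 1, 0, 2, 0] [0, 0, 1, 1, 0, 0, 2, 0] := by simpa using b2
    exact rr_trans a1'.symm (rr_trans e0 (rr_trans b1' b2'))
  by_cases e0' : RR β [0, 2, 1, 1, 0] [0, 2, 0, 1, 1, 0]
  · right; left
    refine ⟨h3, ?_⟩
    have a1 := one_dbl h0 (p := [0, 2, 1, 1]) (q := []) (c := 0) (Or.inl (by simp))
    have b1 := one_dbl h0 (p := [0, 2, 0, 1, 1]) (q := []) (c := 0) (Or.inl (by simp))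
    have b2 := one_dbl h0 (p := [0, 2]) (q := [1, 1, 0, 0]) (c := 0) (Or.inl (by simp))
    have a1' : RR β [0, 2, 1, 1, 0] [0, 2, 1, 1, 0, 0] := by simpa using a1
    have b1' : RR β [0, 2, 0, 1, 1, 0] [0, 2, 0, 1, 1, 0, 0] := by simpa using b1
    have b2' : RR β [0, 2, 0, 1, 1, 0, 0] [0, 2, 0, 0, 1, 1, 0, 0] := by simpa using b2
    exact rr_trans a1'.symm (rr_trans e0' (rr_trans b1' b2'))
  right; right
  have hm' := op_modF hm
  have hn' := ncr_op hn
  have h0' := b0_op h0
  have B1 : MWP.Bt β := ⟨ap_of hn h0, h0.2, sato_mwp hm hn h0, e0⟩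
  have B2 : MWP.Bt (FIC.op β) := by
    refine ⟨ap_of hn' h0', h0'.2, sato_mwp hm' hn' h0', ?_⟩
    intro h
    apply e0'
    rw [rr_op] at h
    exact h
  refine ⟨?_, ?_, tau_of hm hn h0⟩
  · intro l hl
    have := hF β B1 hm (l.map (fun c => c - 3))
    unfold MWP.DV at this
    rw [map_sub_add hl] at this
    exact this
  · intro l hl
    have hl' : ∀ c ∈ l.reverse, 3 ≤ c := fun c hc => hl c (by simpa using hc)
    have := hF (FIC.op β) B2 hm' (l.reverse.map (fun c => c - 3))
    unfold MWP.DV at this
    rw [map_sub_add hl', rr_op, show MWF.dbl = dbl from rfl] at this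
    have h1 := this.sub (fun c => if c = 0 then [1] else if c = 1 then [0] else [c])
    have e : ∀ m : List ℕ, (∀ c ∈ m, 3 ≤ c) → m.flatMap
        (fun c => if c = 0 then [1] else if c = 1 then [0] else [c]) = m := by
      intro m
      induction m with
      | nil => intro _; rfl
      | cons c m ih =>
        intro h
        have hc := h c (by simp)
        have q0 : c ≠ 0 := by omega
        have q1 : c ≠ 1 := by omega
        rw [List.flatMap_cons, ih (fun c hc => h c (by simp [hc]))]
        simp [q0, q1]
    have hd : ∀ c ∈ dbl l, 3 ≤ c := fun c hc => hl c (mem_dbl.1 hc)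
    simp only [List.reverse_cons, List.reverse_append, List.reverse_nil, List.nil_append,
      dbl_reverse, List.reverse_reverse, List.flatMap_append, List.append_assoc,
      e (dbl l) hd] at h1
    simpa using h1

end Pool.Agent.MWB
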