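import Pool.Agent.MWB.Defs
import Pool.Agent.Helper44_MVT.Brg

/-!
Sufficiency from the rows W1D and B2D of block MWS.
-/

namespace Pool.Agent.MWB

open Pool.Agent.Helper14_MV Pool.Agent.Helper2_MV Pool.Agent.Helper44_MVT

theorem sw (h : MWS.W1dStmt) : SwStmt := fun β h0 hw => distF_modF (h β (bw_clW h0 hw))

theorem sb (h : MWS.B2dStmt) : SbStmt := fun β h0 hb => distF_modF (h β (bb_clB h0 hb))

end Pool.Agent.MWB
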