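import Pool.Agent.MWB.Defs
import Pool.Agent.Helper14_MV.J

/-!
# Assembly of the beta theorem
-/

namespace Pool.Agent.MWB

open Pool.Agent.Helper14_MV Pool.Agent.Helper2_MV Pool.Agent.Helper44_MVT

/-- the word with the given list of letters -/
def w (l : List ℕ) : Word := FreeMonoid.ofList l

/-- `(x²y²)² ≈ (y²x²)²` and `x²y²tx ≈ x²y²x²tx` -/
structure SysW (V : Variety) : Prop where
  zero : V.Sat (w [0, 0, 1, 1, 0, 0, 1, 1]) (w [1, 1, 0, 0, 1, 1, 0, 0])
  ends : V.Sat (w [0, 0, 1, 1, 2, 0]) (w [0, 0, 1, 1, 0, 0, 2, 0])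

/-- the dual system: `(x²y²)² ≈ (y²x²)²` and `xty²x² ≈ xtx²y²x²` -/
structure SysW' (V : Variety) : Prop where
  zero : V.Sat (w [0, 0, 1, 1, 0, 0, 1, 1]) (w [1, 1, 0, 0, 1, 1, 0, 0])
  ends : V.Sat (w [0, 2, 1, 1, 0, 0]) (w [0, 2, 0, 0, 1, 1, 0, 0])

/-- `x v y t xy ≈ x v y t yx` and `xy t x v y ≈ yx t x v y` for every product `v` of squares of
further letters, and `x² y_1² … y_r² x² ≈ x² y_1² x² y_2² x² … y_r² x²` for all `r` -/
structure SysB (V : Variety) : Prop where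
  right : ∀ l : List ℕ, (∀ c ∈ l, 3 ≤ c) →
    V.Sat (w ([0] ++ (dbl l ++ [1, 2, 0, 1]))) (w ([0] ++ (dbl l ++ [1, 2, 1, 0])))
  left : ∀ l : List ℕ, (∀ c ∈ l, 3 ≤ c) →
    V.Sat (w ([0, 1, 2, 0] ++ (dbl l ++ [1]))) (w ([1, 0, 2, 0] ++ (dbl l ++ [1])))
  tau : ∀ l : List ℕ,
    V.Sat (w ([0, 0] ++ (dbl l ++ [0, 0]))) (w ([0, 0] ++ l.flatMap (fun c => [c, c, 0, 0])))

/-- completely regular varieties are those satisfying `x ^ (n+1) ≈ x` for some `n ≥ 1` -/
theorem cr_iff (V : Variety) :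
    V.CompletelyRegular ↔ ∃ n, 1 ≤ n ∧ V.Sat (lx ^ (n + 1)) lx := by
  constructor
  · intro h
    have h1 : V.Mem (th V).con.Quotient := by
      have h2 : (ofFIC (th V)).Mem (th V).con.Quotient := fun a b hab => quot_sat _ hab
      rwa [ofFIC_th] at h2
    obtain ⟨b, hb, _⟩ := h _ h1 ((th V).con.mk' lx)
    obtain ⟨w, rfl⟩ := Con.mk'_surjective b
    rw [← map_mul, ← map_mul] at hb
    have h2 : (th V).r (lx * w * lx) lx := (Con.eq (th V).con).1 hb
    have h6 := (th V).sub (FreeMonoid.lift (fun _ => lx)) h2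
    have h5 : ∀ u : Word, ∃ k, (FreeMonoid.lift (fun _ => lx) : Word →* Word) u = lx ^ k := by
      intro u
      induction u using FreeMonoid.inductionOn' with
      | one => exact ⟨0, by simp⟩
      | of_mul c u ih =>
        obtain ⟨k, hk⟩ := ih
        refine ⟨k + 1, ?_⟩
        rw [map_mul, hk, FreeMonoid.lift_eval_of, pow_succ']
    obtain ⟨k, hk⟩ := h5 w
    rw [map_mul, map_mul, hk] at h6
    have h7 : (FreeMonoid.lift (fun _ => lx) : Word →* Word) lx = lx := by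
      simp [lx, FreeMonoid.lift_eval_of]
    rw [h7] at h6
    refine ⟨k + 1, by omega, ?_⟩
    have e : lx ^ (k + 1 + 1) = lx * lx ^ k * lx := by rw [pow_succ, pow_succ']
    rw [e]
    exact h6
  · rintro ⟨n, hn, h⟩ M _ hM a
    have h1 := h M hM (FreeMonoid.lift (fun _ => a))
    simp only [map_pow] at h1
    have h7 : (FreeMonoid.lift (fun _ => a) : Word →* M) lx = a := by
      simp [lx, FreeMonoid.lift_eval_of]
    rw [h7] at h1
    obtain ⟨m, rfl⟩ : ∃ m, n = m + 1 := ⟨n - 1, by omega⟩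
    refine ⟨a ^ m, ?_, ?_⟩
    · rw [← pow_succ', ← pow_succ]; exact h1
    · rw [← pow_succ', ← pow_succ]

theorem rr_op {β : FIC} {l l' : List ℕ} : RR (FIC.op β) l l' ↔ RR β l.reverse l'.reverse := by
  have e : ∀ m : List ℕ, (FreeMonoid.ofList m).reverse = FreeMonoid.ofList m.reverse :=
    fun m => rfl
  unfold RR
  rw [← e, ← e]
  rfl

theorem op_op (β : FIC) : FIC.op (FIC.op β) = β := by
  apply FIC.ext'
  intro a b
  constructor
  · intro h
    have h1 : β.r a.reverse.reverse b.reverse.reverse := h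
    simpa using h1
  · intro h
    show β.r a.reverse.reverse b.reverse.reverse
    simpa using h

theorem bw'_modF (hW : SwStmt) {β : FIC} (h0 : B0 β) (h : BW' β) : ModF β := by
  have h1 : ModF (FIC.op β) := by
    apply hW
    · refine ⟨?_, ?_⟩
      · rw [rr_op]; exact h0.1
      · rw [rr_op]; exact h0.2
    · refine ⟨?_, ?_⟩
      · rw [rr_op]
        exact h.1.symm
      · rw [rr_op]
        exact h.2
  have h2 := op_modF h1
  rwa [op_op] at h2

/-- **the beta theorem** -/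
theorem main (hN : NecStmt) (hW : SwStmt) (hB : SbStmt) (V : Variety)
    (h1 : V.Sat (w [0, 0]) (w [0, 0, 0])) (h2 : V.Sat (w [0, 1, 0]) (w [0, 0, 1, 0, 0])) :
    V.ModularLattice ↔ V.CompletelyRegular ∨ SysW V ∨ SysW' V ∨ SysB V := by
  have h0 : B0 (th V) := ⟨h1, h2⟩
  constructor
  · intro hm
    rw [modular_iff] at hm
    by_cases hcr : V.CompletelyRegular
    · exact Or.inl hcr
    right
    have hn : NCR (th V) := by
      intro n hn h
      exact hcr ((cr_iff V).2 ⟨n, hn, h⟩)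
    rcases hN (th V) hm hn h0 with h | h | h
    · exact Or.inl ⟨h.1, h.2⟩
    · exact Or.inr (Or.inl ⟨h.1, h.2⟩)
    · exact Or.inr (Or.inr ⟨h.1, h.2.1, h.2.2⟩)
  · intro h
    rw [modular_iff]
    rcases h with h | h | h | h
    · obtain ⟨n, hn, h3⟩ := (cr_iff V).1 h
      exact FIC.modular_CR (FIC.CR.of_letter hn h3)
    · exact hW (th V) h0 ⟨h.zero, h.ends⟩
    · exact bw'_modF hW h0 ⟨h.zero, h.ends⟩
    · exact hB (th V) h0 ⟨h.right, h.left, h.tau⟩

end Pool.Agent.MWB
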