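import Pool.Agent.Helper2_MV.Pin

/-!
# Monoid varieties with modular subvariety lattice: swaps of adjacent occurrences

Necessary conditions for all varieties for which `xyx` is an isoterm.
-/

namespace Pool.Agent.MWB.OccurrenceSwaps

open Pool.Agent.Helper14_MV Pool.Agent.Helper2_MV

/-- the word with the given letters: `0, 1, 2, 3, 4` stand for `x, y, z, t, s` -/
def w (l : List ℕ) : Word := FreeMonoid.ofList l

/-- renaming of the separators -/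
def ren (i : ℕ) : List ℕ := if i = 9 then [3] else if i = 10 then [4] else [i]

theorem iso3 {V : Variety} (h : ∀ v : Word, V.Sat (w [0, 1, 0]) v → v = w [0, 1, 0]) :
    Iso3 (th V) := by
  intro l hl
  have := h (FreeMonoid.ofList l) hl
  exact FreeMonoid.ofList.injective this

theorem items (V : Variety) (h : ∀ v : Word, V.Sat (w [0, 1, 0]) v → v = w [0, 1, 0])
    (hm : V.ModularLattice) :
    (V.Sat (w [0, 2, 3, 0, 4, 2]) (w [2, 0, 3, 0, 4, 2]) ∨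
      (V.Sat (w [0, 2, 1, 3, 0, 1, 4, 2]) (w [0, 2, 1, 3, 1, 0, 4, 2]) ∧
        V.Sat (w [0, 2, 1, 3, 2, 4, 0, 1]) (w [0, 2, 1, 3, 2, 4, 1, 0]))) ∧
    (V.Sat (w [2, 3, 0, 2, 4, 0]) (w [2, 3, 2, 0, 4, 0]) ∨
      (V.Sat (w [2, 3, 0, 2, 1, 4, 0, 1]) (w [2, 3, 0, 2, 1, 4, 1, 0]) ∧
        V.Sat (w [0, 1, 3, 0, 2, 1, 4, 2]) (w [1, 0, 3, 0, 2, 1, 4, 2]))) ∧
    (V.Sat (w [0, 3, 2, 4, 0, 2]) (w [0, 3, 2, 4, 2, 0]) ∨
      (V.Sat (w [2, 3, 0, 1, 4, 0, 2, 1]) (w [2, 3, 1, 0, 4, 0, 2, 1]) ∧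
        V.Sat (w [0, 1, 3, 2, 4, 0, 2, 1]) (w [1, 0, 3, 2, 4, 0, 2, 1]))) := by
  have hM := (modular_iff V).1 hm
  have H := iso3 h
  have a1 := pin hM H (show Arr 0 1 2 by unfold Arr; omega)
  have a2 := pin hM H (show Arr 0 2 1 by unfold Arr; omega)
  have a3 := pin hM H (show Arr 1 2 0 by unfold Arr; omega)
  have a4 := pin hM H (show Arr 1 0 2 by unfold Arr; omega)
  have a5 := pin hM H (show Arr 2 1 0 by unfold Arr; omega)
  have a6 := pin hM H (show Arr 2 0 1 by unfold Arr; omega)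
  have r : ∀ {l l' : List ℕ}, RR (th V) l l' → V.Sat (w (l.flatMap ren)) (w (l'.flatMap ren)) :=
    fun hr => hr.sub ren
  -- exchange of the letters `0` and `2`
  have r' : ∀ {l l' : List ℕ}, RR (th V) l l' →
      V.Sat (w ((l.flatMap (fun i => if i = 0 then [2] else if i = 2 then [0] else [i])).flatMap
        ren)) (w ((l'.flatMap (fun i => if i = 0 then [2] else if i = 2 then [0] else
          [i])).flatMap ren)) := fun hr => (hr.sub _).sub ren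
  have sym : ∀ {u v : Word}, V.Sat u v → V.Sat v u := fun hr => (th V).symm hr
  refine ⟨?_, ?_, ?_⟩
  · rcases a1 with b1 | b1
    · exact Or.inl (r b1)
    · rcases a2 with b2 | b2
      · exact Or.inl (sym (r' b2))
      · exact Or.inr ⟨r b1, r b2⟩
  · rcases a3 with b1 | b1
    · exact Or.inl (r b1)
    · rcases a4 with b2 | b2
      · exact Or.inl (sym (r' b2))
      · exact Or.inr ⟨r b1, r b2⟩
  · rcases a5 with b1 | b1
    · exact Or.inl (sym (r' b1))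
    · rcases a6 with b2 | b2
      · exact Or.inl (r b2)
      · exact Or.inr ⟨r b1, r b2⟩

/-- Let `xyx` be an isoterm for the variety `V` and let `L(V)` be modular. Then `V` satisfies
(with `x = 0`, `y = 1`, `z = 2`, `t = 3`, `s = 4`)

* `xz t x s z ≈ zx t x s z`, or both `xzy t xy s z ≈ xzy t yx s z` and
  `xzy t z s xy ≈ xzy t z s yx`;
* `z t xz s x ≈ z t zx s x`, or both `z t xzy s xy ≈ z t xzy s yx` and
  `xy t xzy s z ≈ yx t xzy s z`;
* `x t z s xz ≈ x t z s zx`, or both `z t xy s xzy ≈ z t yx s xzy` and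
  `xy t z s xzy ≈ yx t z s xzy`;

in particular `V` satisfies the first identities of the first and of the second item, or those of
the second and of the third item, or `xy t xy ≈ yx t xy` and `xy t xy ≈ xy t yx`. -/
theorem result (V : Variety) (h : ∀ v : Word, V.Sat (w [0, 1, 0]) v → v = w [0, 1, 0])
    (hm : V.ModularLattice) :
    (V.Sat (w [0, 2, 3, 0, 4, 2]) (w [2, 0, 3, 0, 4, 2]) ∨
      (V.Sat (w [0, 2, 1, 3, 0, 1, 4, 2]) (w [0, 2, 1, 3, 1, 0, 4, 2]) ∧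
        V.Sat (w [0, 2, 1, 3, 2, 4, 0, 1]) (w [0, 2, 1, 3, 2, 4, 1, 0]))) ∧
    (V.Sat (w [2, 3, 0, 2, 4, 0]) (w [2, 3, 2, 0, 4, 0]) ∨
      (V.Sat (w [2, 3, 0, 2, 1, 4, 0, 1]) (w [2, 3, 0, 2, 1, 4, 1, 0]) ∧
        V.Sat (w [0, 1, 3, 0, 2, 1, 4, 2]) (w [1, 0, 3, 0, 2, 1, 4, 2]))) ∧
    (V.Sat (w [0, 3, 2, 4, 0, 2]) (w [0, 3, 2, 4, 2, 0]) ∨
      (V.Sat (w [2, 3, 0, 1, 4, 0, 2, 1]) (w [2, 3, 1, 0, 4, 0, 2, 1]) ∧
        V.Sat (w [0, 1, 3, 2, 4, 0, 2, 1]) (w [1, 0, 3, 2, 4, 0, 2, 1]))) ∧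
    ((V.Sat (w [0, 2, 3, 0, 4, 2]) (w [2, 0, 3, 0, 4, 2]) ∧
        V.Sat (w [2, 3, 0, 2, 4, 0]) (w [2, 3, 2, 0, 4, 0])) ∨
      (V.Sat (w [2, 3, 0, 2, 4, 0]) (w [2, 3, 2, 0, 4, 0]) ∧
        V.Sat (w [0, 3, 2, 4, 0, 2]) (w [0, 3, 2, 4, 2, 0])) ∨
      (V.Sat (w [0, 1, 3, 0, 1]) (w [1, 0, 3, 0, 1]) ∧
        V.Sat (w [0, 1, 3, 0, 1]) (w [0, 1, 3, 1, 0]))) := by
  obtain ⟨i1, i2, i3⟩ := items V h hm
  refine ⟨i1, i2, i3, ?_⟩
  have sub : ∀ (g : ℕ → List ℕ) {l l' : List ℕ}, V.Sat (w l) (w l') →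
      V.Sat (w (l.flatMap g)) (w (l'.flatMap g)) := by
    intro g l l' hr
    have hr' : RR (th V) l l' := hr
    exact hr'.sub g
  -- erase `z` and `s`, or `z` and `t`
  have er1 : ∀ {l l' : List ℕ}, V.Sat (w l) (w l') →
      V.Sat (w (l.flatMap (fun i => if i = 2 ∨ i = 4 then [] else [i])))
        (w (l'.flatMap (fun i => if i = 2 ∨ i = 4 then [] else [i]))) := fun hr => sub _ hr
  have er2 : ∀ {l l' : List ℕ}, V.Sat (w l) (w l') →
      V.Sat (w (l.flatMap (fun i => if i = 2 ∨ i = 3 then [] else if i = 4 then [3] else [i])))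
        (w (l'.flatMap (fun i => if i = 2 ∨ i = 3 then [] else if i = 4 then [3] else [i]))) :=
    fun hr => sub _ hr
  rcases i2 with j2 | ⟨j2, k2⟩
  · rcases i1 with j1 | ⟨j1, k1⟩
    · exact Or.inl ⟨j1, j2⟩
    · rcases i3 with j3 | ⟨j3, k3⟩
      · exact Or.inr (Or.inl ⟨j2, j3⟩)
      · exact Or.inr (Or.inr ⟨er2 j3, er1 j1⟩)
  · exact Or.inr (Or.inr ⟨er1 k2, er2 j2⟩)

end Pool.Agent.MWB.OccurrenceSwaps
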