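import Pool.Agent.MWB.Comp
import Pool.Agent.MWB.Suf
import Pool.Agent.MWB.Nec
import Pool.Agent.Helper70_MWB.FIN

/-!
# Monoid varieties with modular subvariety lattice: the aperiodic varieties satisfying
`xyx ≈ x²yx²`

`V.Sat (w u) (w v)` stands for: the variety `V` satisfies the identity `u ≈ v`.  Words are lists of
letters; the letters `0, 1, 2` are written `x, y, t` in the comments.
-/

namespace Pool.Agent.MWB.Draft

open Pool.Agent.Helper14_MV Pool.Agent.Helper2_MV

/-- the word with the given list of letters -/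
def w (l : List ℕ) : Word := FreeMonoid.ofList l

/-- every letter written twice: the product of the squares of the letters of `l` -/
def sq (l : List ℕ) : List ℕ := l.flatMap (fun c => [c, c])

/-- first system: `(x²y²)² ≈ (y²x²)²` and `x²y²tx ≈ x²y²x²tx` -/
structure SysW (V : Variety) : Prop where
  zero : V.Sat (w [0, 0, 1, 1, 0, 0, 1, 1]) (w [1, 1, 0, 0, 1, 1, 0, 0])
  move : V.Sat (w [0, 0, 1, 1, 2, 0]) (w [0, 0, 1, 1, 0, 0, 2, 0])

/-- the dual of the first system: `(x²y²)² ≈ (y²x²)²` and `xty²x² ≈ xtx²y²x²` -/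
structure CoSysW (V : Variety) : Prop where
  zero : V.Sat (w [0, 0, 1, 1, 0, 0, 1, 1]) (w [1, 1, 0, 0, 1, 1, 0, 0])
  move : V.Sat (w [0, 2, 1, 1, 0, 0]) (w [0, 2, 0, 0, 1, 1, 0, 0])

/-- second system, for all products of squares of letters: `x v y t xy ≈ x v y t yx` and
`xy t x v y ≈ yx t x v y` if `v` is a product of squares of letters different from `x, y, t`, and
`x² y_1² y_2² … y_r² x² ≈ x² y_1² x² y_2² x² … y_r² x²` for all letters `y_1, …, y_r` -/
structure SysB (V : Variety) : Prop where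
  right : ∀ l : List ℕ, (∀ c ∈ l, 3 ≤ c) →
    V.Sat (w ([0] ++ (sq l ++ [1, 2, 0, 1]))) (w ([0] ++ (sq l ++ [1, 2, 1, 0])))
  left : ∀ l : List ℕ, (∀ c ∈ l, 3 ≤ c) →
    V.Sat (w ([0, 1, 2, 0] ++ (sq l ++ [1]))) (w ([1, 0, 2, 0] ++ (sq l ++ [1])))
  spread : ∀ l : List ℕ,
    V.Sat (w ([0, 0] ++ (sq l ++ [0, 0]))) (w ([0, 0] ++ l.flatMap (fun c => [c, c, 0, 0])))

/-! ### the two identities of the hypothesis -/

theorem b0_of {β : FIC} (ha : ∃ m, β.r (lx ^ (m + 1)) (lx ^ m))
    (hb : β.r (lx * ly * lx) (lx ^ 2 * ly * lx ^ 2)) : MWB.B0 β := by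
  refine ⟨?_, ?_⟩
  · obtain ⟨m, hm⟩ := ha
    -- `x² ≈ x⁴`
    have h4 : β.r (lx ^ 2) (lx ^ 4) := by
      have h := β.sub (FreeMonoid.lift (fun i => if i = 1 then (1 : Word) else FreeMonoid.of i)) hb
      have ex : (FreeMonoid.lift (fun i => if i = 1 then (1 : Word) else FreeMonoid.of i) :
          Word →* Word) lx = lx := by simp [lx]
      have ey : (FreeMonoid.lift (fun i => if i = 1 then (1 : Word) else FreeMonoid.of i) :
          Word →* Word) ly = 1 := by simp [ly]
      rw [map_mul, map_mul, map_mul, map_mul, map_pow, ex, ey, mul_one, mul_one] at h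
      have e1 : lx * lx = lx ^ 2 := (pow_two lx).symm
      have e2 : lx ^ 2 * lx ^ 2 = lx ^ 4 := by rw [← pow_add]
      rw [e1, e2] at h
      exact h
    have hj : ∀ j : ℕ, β.r (lx ^ 2) (lx ^ (2 + 2 * j)) := by
      intro j
      induction j with
      | zero => exact β.refl _
      | succ j ih =>
        have h1 : β.r (lx ^ 2 * lx ^ (2 * j)) (lx ^ 4 * lx ^ (2 * j)) := β.mul h4 (β.refl _)
        rw [← pow_add, ← pow_add] at h1
        have e : 2 + 2 * (j + 1) = 4 + 2 * j := by ring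
        rw [e]
        exact β.trans ih h1
    have h5 : β.r (lx ^ (2 + 2 * m)) (lx ^ (3 + 2 * m)) := by
      have h1 : β.r (lx ^ m * lx ^ (2 + m)) (lx ^ (m + 1) * lx ^ (2 + m)) :=
        β.mul (β.symm hm) (β.refl _)
      rw [← pow_add, ← pow_add] at h1
      have e1 : m + (2 + m) = 2 + 2 * m := by ring
      have e2 : m + 1 + (2 + m) = 3 + 2 * m := by ring
      rw [e1, e2] at h1
      exact h1
    have h6 : β.r (lx ^ (3 + 2 * m)) (lx ^ 3) := by
      have h1 : β.r (lx ^ (2 + 2 * m) * lx) (lx ^ 2 * lx) := β.mul (β.symm (hj m)) (β.refl _)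
      rw [← pow_succ, ← pow_succ] at h1
      have e1 : 2 + 2 * m + 1 = 3 + 2 * m := by ring
      rw [e1] at h1
      exact h1
    exact β.trans (hj m) (β.trans h5 h6)
  · exact hb

/-! ### duality -/

theorem op_distF {β : FIC} (h : DistF β) : DistF (FIC.op β) := by
  intro ρ σ τ hρ hσ hτ u v h1 h2
  have e : ∀ ρ : FIC, FIC.op β ≤ ρ → β ≤ FIC.op ρ := by
    intro ρ hρ a b hab
    apply hρ
    show β.r _ _
    rw [FreeMonoid.reverse_reverse, FreeMonoid.reverse_reverse]
    exact hab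
  have h3 := h (FIC.op ρ) (FIC.op σ) (FIC.op τ) (e ρ hρ) (e σ hσ) (e τ hτ)
    u.reverse v.reverse (FIC.sup_op h1) (FIC.sup_op h2)
  have h4 := FIC.sup_op h3
  have h5 : FIC.sup (FIC.op (FIC.op ρ)) (FIC.op (FIC.inf (FIC.op σ) (FIC.op τ))) ≤
      FIC.sup ρ (FIC.inf σ τ) := by
    apply FIC.sup_le
    · intro a b hab
      apply FIC.le_sup_left
      have : ρ.r a.reverse.reverse b.reverse.reverse := hab
      rwa [FreeMonoid.reverse_reverse, FreeMonoid.reverse_reverse] at this
    · intro a b hab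
      apply FIC.le_sup_right
      have h6 : σ.r a.reverse.reverse b.reverse.reverse ∧ τ.r a.reverse.reverse b.reverse.reverse :=
        hab
      rwa [FreeMonoid.reverse_reverse, FreeMonoid.reverse_reverse] at h6
  have h7 := h5 _ _ h4
  rwa [FreeMonoid.reverse_reverse, FreeMonoid.reverse_reverse] at h7

/-! ### sufficiency -/

theorem distF_w {β : FIC} (h0 : MWB.B0 β) (h : MWB.BW β) : DistF β :=
  MWB.Comp.mws_w1d β (Helper44_MVT.bw_clW h0 h)

theorem distF_b {β : FIC} (h0 : MWB.B0 β) (h : MWB.BB β) : DistF β :=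
  MWB.Comp.mws_b2d β (Helper44_MVT.bb_clB h0 h)

theorem distF_w' {β : FIC} (h0 : MWB.B0 β) (h : MWB.BW' β) : DistF β := by
  have h1 : DistF (FIC.op β) := by
    apply distF_w
    · refine ⟨?_, ?_⟩
      · rw [MWB.rr_op]; exact h0.1
      · rw [MWB.rr_op]; exact h0.2
    · refine ⟨?_, ?_⟩
      · rw [MWB.rr_op]
        exact h.1.symm
      · rw [MWB.rr_op]
        exact h.2
  have h2 := op_distF h1
  rwa [MWB.op_op] at h2

theorem distF_of {V : Variety} (h0 : MWB.B0 (th V)) (h : SysW V ∨ CoSysW V ∨ SysB V) :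
    DistF (th V) := by
  rcases h with h | h | h
  · exact distF_w h0 ⟨h.zero, h.move⟩
  · exact distF_w' h0 ⟨h.zero, h.move⟩
  · exact distF_b h0 ⟨h.right, h.left, h.spread⟩

/-! ### the theorem -/

theorem nec {V : Variety} (h0 : MWB.B0 (th V)) (h : V.ModularLattice) :
    V.Sat (lx ^ 2) lx ∨ SysW V ∨ CoSysW V ∨ SysB V := by
  by_cases h2 : V.Sat (lx ^ 2) lx
  · exact Or.inl h2
  right
  -- `V` does not satisfy `x ^ (n + 1) ≈ x`
  have hn : MWB.NCR (th V) := by
    intro n hn h3
    apply h2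
    -- `x ≈ x ^ (n + 1) ≈ x ^ (n + 2) ≈ x ^ 2`
    have h23 : (th V).r (lx ^ 2) (lx ^ 3) := h0.1
    have h4 : (th V).r (lx ^ (n + 1)) (lx ^ (n + 2)) := by
      have h5 := (th V).mul ((th V).refl (lx ^ (n - 1))) h23
      rw [← pow_add, ← pow_add] at h5
      have e1 : n - 1 + 2 = n + 1 := by omega
      have e2 : n - 1 + 3 = n + 2 := by omega
      rw [e1, e2] at h5
      exact h5
    have h6 : (th V).r (lx ^ (n + 2)) (lx ^ 2) := by
      have h7 := (th V).mul h3 ((th V).refl lx)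
      rw [← pow_succ, ← pow_two] at h7
      exact h7
    exact (th V).symm ((th V).trans ((th V).symm h3) ((th V).trans h4 h6))
  rcases MWB.nec MWP.H70.fin (th V) ((modular_iff V).1 h) hn h0 with h | h | h
  · exact Or.inl ⟨h.1, h.2⟩
  · exact Or.inr (Or.inl ⟨h.1, h.2⟩)
  · exact Or.inr (Or.inr ⟨h.1, h.2.1, h.2.2⟩)

/-- **Theorem.**  Let `V` be a variety of aperiodic monoids (it satisfies `x ^ (m+1) ≈ x ^ m` for some
`m`) which satisfies `xyx ≈ x²yx²`.  Then `L(V)` is modular if and only if `V` satisfies `x² ≈ x`, or the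
identities of the first system, or those of its dual, or those of the second system; and if `V` does
not satisfy `x² ≈ x`, then `L(V)` is modular if and only if it is distributive. -/
theorem result (V : Variety) (ha : ∃ m, V.Sat (lx ^ (m + 1)) (lx ^ m))
    (hb : V.Sat (lx * ly * lx) (lx ^ 2 * ly * lx ^ 2)) :
    (V.ModularLattice ↔ V.Sat (lx ^ 2) lx ∨ SysW V ∨ CoSysW V ∨ SysB V) ∧
    (¬ V.Sat (lx ^ 2) lx → (V.ModularLattice ↔ V.DistribLattice)) := by
  have h0 : MWB.B0 (th V) := b0_of ha hb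
  refine ⟨⟨nec h0, ?_⟩, ?_⟩
  · intro h
    rw [modular_iff]
    rcases h with h | h
    · have h' : (th V).r (lx ^ (1 + 1)) lx := h
      exact FIC.modular_CR (FIC.CR.of_letter (le_refl 1) h')
    · exact distF_modF (distF_of h0 h)
  · intro hn
    constructor
    · intro hm
      rw [distrib_iff]
      exact distF_of h0 ((nec h0 hm).resolve_left hn)
    · intro hd
      exact (modular_iff V).2 (distF_modF ((distrib_iff V).1 hd))

end Pool.Agent.MWB.Draft
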